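import Mathlib

set_option autoImplicit false

namespace Pool.Agent.BP245

/-- `K` is scattered: every nonempty subset has a relatively isolated point. -/
def Scattered (K : Type) [TopologicalSpace K] : Prop :=
  ∀ A : Set K, A.Nonempty → ∃ x ∈ A, ∃ U : Set K, IsOpen U ∧ U ∩ A = {x}

end Pool.Agent.BP245
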