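import Mathlib
import Pool.Agent.BP245.Defs

set_option autoImplicit false

open Set Topology Filter

namespace Pool.Agent.BP245

variable {K : Type} [TopologicalSpace K] [CompactSpace K] [T2Space K]

/-- On functions living in the open set `O`, the functional is almost determined by finitely many
values. -/
def PP (μ : C(K, ℝ) →L[ℝ] ℝ) (O : Set K) : Prop :=
  ∀ ε : ℝ, 0 < ε → ∃ Φ : Finset K, ∀ f : C(K, ℝ), ‖f‖ ≤ 1 → (∀ t, t ∉ O → f t = 0) →
    (∀ t ∈ Φ, f t = 0) → |μ f| ≤ ε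

theorem PP_empty (μ : C(K, ℝ) →L[ℝ] ℝ) : PP μ ∅ := by
  intro ε hε
  refine ⟨∅, ?_⟩
  intro f _ hf _
  have : f = 0 := by
    ext t
    exact hf t (notMem_empty t)
  rw [this]
  simpa using hε.le

theorem PP_insert (μ : C(K, ℝ) →L[ℝ] ℝ) {O : Set K} (h : PP μ O) (x : K) :
    PP μ (insert x O) := by
  classical
  intro ε hε
  obtain ⟨Φ, hΦ⟩ := h ε hε
  refine ⟨insert x Φ, ?_⟩
  intro f hf1 hf2 hf3
  refine hΦ f hf1 ?_ ?_
  · intro t ht
    by_cases htx : t = x
    · rw [htx]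
      exact hf3 x (Finset.mem_insert_self x Φ)
    · apply hf2
      rw [mem_insert_iff]
      push Not
      exact ⟨htx, ht⟩
  · intro t ht
    exact hf3 t (Finset.mem_insert_of_mem ht)

theorem PP_chain (μ : C(K, ℝ) →L[ℝ] ℝ) {c : Set (Set K)} (hc : ∀ O ∈ c, IsOpen O ∧ PP μ O)
    (hchain : IsChain (· ⊆ ·) c) (hne : c.Nonempty) : PP μ (⋃₀ c) := by
  classical
  intro ε hε
  -- the norm of `μ` on functions living in the union
  set A : Set ℝ := {r | ∃ f : C(K, ℝ), ‖f‖ ≤ 1 ∧ (∀ t, t ∉ ⋃₀ c → f t = 0) ∧ r = μ f} with hA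
  have hbdd : BddAbove A := by
    refine ⟨‖μ‖, ?_⟩
    rintro r ⟨f, hf1, -, rfl⟩
    calc μ f ≤ ‖μ f‖ := le_abs_self _
      _ ≤ ‖μ‖ * ‖f‖ := μ.le_opNorm f
      _ ≤ ‖μ‖ * 1 := by gcongr
      _ = ‖μ‖ := mul_one _
  have hAne : A.Nonempty := ⟨μ 0, 0, by simp, by simp, rfl⟩
  obtain ⟨r, ⟨f0, hf01, hf02, rfl⟩, hr⟩ := exists_lt_of_lt_csSup hAne
    (show sSup A - ε / 4 < sSup A by linarith)
  -- a soft threshold
  set δ : ℝ := ε / (4 * (‖μ‖ + 1)) with hδ
  have hμ1 : 0 < ‖μ‖ + 1 := by positivity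
  have hδ0 : 0 < δ := by positivity
  have hδμ : ‖μ‖ * δ ≤ ε / 4 := by
    rw [hδ]
    have : ‖μ‖ * (ε / (4 * (‖μ‖ + 1))) = (ε / 4) * (‖μ‖ / (‖μ‖ + 1)) := by
      field_simp
    rw [this]
    have h1 : ‖μ‖ / (‖μ‖ + 1) ≤ 1 := by
      rw [div_le_one hμ1]
      linarith
    nlinarith
  set f1 : C(K, ℝ) := ⟨fun t => f0 t - max (-δ) (min δ (f0 t)), by fun_prop⟩ with hf1
  have hf1t : ∀ t, f1 t = f0 t - max (-δ) (min δ (f0 t)) := fun t => rfl
  have hclip : ∀ t, |max (-δ) (min δ (f0 t))| ≤ δ := by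
    intro t
    rw [abs_le]
    constructor
    · exact le_max_left _ _
    · exact max_le (by linarith) (min_le_left _ _)
  have hf0abs : ∀ t, |f0 t| ≤ 1 := fun t => (f0.norm_coe_le_norm t).trans hf01
  have hf1abs : ∀ t, |f1 t| ≤ 1 := by
    intro t
    rw [hf1t, abs_le]
    have h0 := abs_le.1 (hf0abs t)
    rcases le_total (f0 t) δ with h1 | h1
    · rw [min_eq_right h1]
      rcases le_total (-δ) (f0 t) with h2 | h2
      · rw [max_eq_right h2]
        constructor <;> linarith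
      · rw [max_eq_left h2]
        constructor <;> linarith
    · rw [min_eq_left h1, max_eq_right (by linarith)]
      constructor <;> linarith
  have hf1zero : ∀ t, |f0 t| < δ → f1 t = 0 := by
    intro t ht
    rw [abs_lt] at ht
    rw [hf1t, min_eq_right ht.2.le, max_eq_right ht.1.le]
    ring
  have hμf1 : μ f0 - ε / 4 ≤ μ f1 := by
    have h1 : ‖f0 - f1‖ ≤ δ := by
      rw [ContinuousMap.norm_le _ hδ0.le]
      intro t
      have : (f0 - f1) t = max (-δ) (min δ (f0 t)) := by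
        rw [ContinuousMap.sub_apply, hf1t]
        ring
      rw [this]
      exact hclip t
    have h2 : μ f0 - μ f1 ≤ ‖μ‖ * δ := by
      rw [← map_sub]
      calc μ (f0 - f1) ≤ ‖μ (f0 - f1)‖ := le_abs_self _
        _ ≤ ‖μ‖ * ‖f0 - f1‖ := μ.le_opNorm _
        _ ≤ ‖μ‖ * δ := by gcongr
    linarith
  -- the compact set
  set Cs : Set K := {t | δ ≤ |f0 t|} with hCs
  have hCsClosed : IsClosed Cs := isClosed_le continuous_const (by fun_prop)
  have hCsub : Cs ⊆ ⋃₀ c := by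
    intro t ht
    by_contra hne'
    have h0 := hf02 t hne'
    have : δ ≤ |f0 t| := ht
    rw [h0, abs_zero] at this
    linarith
  obtain ⟨O1, hO1c, hO1⟩ : ∃ O1 ∈ c, Cs ⊆ O1 := by
    have hcomp : IsCompact Cs := hCsClosed.isCompact
    rw [sUnion_eq_biUnion] at hCsub
    haveI : Nonempty c := hne.to_subtype
    have hdir : Directed (· ⊆ ·) (fun i : c => (i : Set K)) := by
      intro i j
      rcases hchain.total i.2 j.2 with h | h
      · exact ⟨j, h, subset_rfl⟩
      · exact ⟨i, subset_rfl, h⟩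
    have hcov : Cs ⊆ ⋃ i : c, (i : Set K) := by
      intro t ht
      obtain ⟨s, hs, hts⟩ := mem_iUnion₂.1 (hCsub ht)
      exact mem_iUnion.2 ⟨⟨s, hs⟩, hts⟩
    obtain ⟨i, hi⟩ := hcomp.elim_directed_cover _ (fun i : c => (hc i i.2).1) hcov hdir
    exact ⟨i, i.2, hi⟩
  -- a Urysohn function
  obtain ⟨u, hu0, hu1, hu2⟩ := exists_continuous_zero_one_of_isClosed (X := K)
    (s := O1ᶜ) (t := Cs) (hc O1 hO1c).1.isClosed_compl hCsClosed
    (disjoint_left.2 (fun t h1 h2 => h1 (hO1 h2)))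
  obtain ⟨Φ, hΦ⟩ := (hc O1 hO1c).2 (ε / 4) (by positivity)
  refine ⟨Φ, ?_⟩
  intro f hfn hfO hfΦ
  have hfabs : ∀ t, |f t| ≤ 1 := fun t => (f.norm_coe_le_norm t).trans hfn
  have hua : ∀ t, |u t| ≤ 1 := by
    intro t
    rw [abs_le]
    constructor <;> linarith [(hu2 t).1, (hu2 t).2]
  have hua' : ∀ t, |1 - u t| ≤ 1 := by
    intro t
    rw [abs_le]
    constructor <;> linarith [(hu2 t).1, (hu2 t).2]
  have hsplit : f = u * f + (1 - u) * f := by ring
  have h1 : |μ (u * f)| ≤ ε / 4 := by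
    apply hΦ
    · rw [ContinuousMap.norm_le _ zero_le_one]
      intro t
      rw [ContinuousMap.mul_apply, Real.norm_eq_abs, abs_mul]
      exact mul_le_one₀ (hua t) (abs_nonneg _) (hfabs t)
    · intro t ht
      rw [ContinuousMap.mul_apply, hu0 ht]
      simp
    · intro t ht
      rw [ContinuousMap.mul_apply, hfΦ t ht, mul_zero]
  set g : C(K, ℝ) := (1 - u) * f with hg
  have hgt : ∀ t, g t = (1 - u t) * f t := by
    intro t
    rw [hg, ContinuousMap.mul_apply, ContinuousMap.sub_apply, ContinuousMap.one_apply]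
  have hgC : ∀ t ∈ Cs, g t = 0 := by
    intro t ht
    rw [hgt, hu1 ht]
    simp
  have hgO : ∀ t, t ∉ ⋃₀ c → g t = 0 := by
    intro t ht
    rw [hgt, hfO t ht, mul_zero]
  have hgabs : ∀ t, |g t| ≤ 1 := by
    intro t
    rw [hgt, abs_mul]
    exact mul_le_one₀ (hua' t) (abs_nonneg _) (hfabs t)
  have hf1O : ∀ t, t ∉ ⋃₀ c → f1 t = 0 := by
    intro t ht
    apply hf1zero
    rw [hf02 t ht, abs_zero]
    exact hδ0
  have key : ∀ s : ℝ, |s| = 1 → μ f1 + s * μ g ≤ sSup A := by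
    intro s hs
    apply le_csSup hbdd
    refine ⟨f1 + s • g, ?_, ?_, ?_⟩
    · rw [ContinuousMap.norm_le _ zero_le_one]
      intro t
      rw [ContinuousMap.add_apply, ContinuousMap.smul_apply, Real.norm_eq_abs, smul_eq_mul]
      by_cases ht : t ∈ Cs
      · rw [hgC t ht, mul_zero, add_zero]
        exact hf1abs t
      · have : |f0 t| < δ := not_le.1 ht
        rw [hf1zero t this, zero_add, abs_mul, hs, one_mul]
        exact hgabs t
    · intro t ht
      rw [ContinuousMap.add_apply, ContinuousMap.smul_apply, hf1O t ht, hgO t ht]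
      simp
    · rw [map_add, map_smul, smul_eq_mul]
  have h2 : |μ g| ≤ ε / 2 := by
    have ha := key 1 (by simp)
    have hb := key (-1) (by simp)
    rw [abs_le]
    constructor <;> linarith
  have h3 : μ f = μ (u * f) + μ g := by
    rw [← map_add, ← hsplit]
  rw [h3]
  calc |μ (u * f) + μ g| ≤ |μ (u * f)| + |μ g| := abs_add_le _ _
    _ ≤ ε / 4 + ε / 2 := add_le_add h1 h2
    _ ≤ ε := by linarith

/-- for scattered `K` every functional is almost determined by finitely many values -/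
theorem PP_univ (hK : Scattered K) (μ : C(K, ℝ) →L[ℝ] ℝ) : PP μ univ := by
  obtain ⟨m, hm⟩ := zorn_subset {O : Set K | IsOpen O ∧ PP μ O} (by
    intro c hc hchain
    rcases c.eq_empty_or_nonempty with h0 | hne
    · exact ⟨∅, ⟨isOpen_empty, PP_empty μ⟩, by simp [h0]⟩
    · exact ⟨⋃₀ c, ⟨isOpen_sUnion fun O hO => (hc hO).1,
        PP_chain μ (fun O hO => hc hO) hchain hne⟩, fun s hs => subset_sUnion_of_mem hs⟩)
  have hmu : m = univ := by
    by_contra hne
    have hcne : (mᶜ).Nonempty := nonempty_compl.2 hne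
    obtain ⟨x, hx, U, hU, hUx⟩ := hK mᶜ hcne
    have hins : insert x m = m ∪ U := by
      ext t
      constructor
      · rintro (rfl | ht)
        · right
          have : t ∈ U ∩ mᶜ := by rw [hUx]; rfl
          exact this.1
        · exact Or.inl ht
      · rintro (ht | ht)
        · exact Or.inr ht
        · by_cases htm : t ∈ m
          · exact Or.inr htm
          · left
            have : t ∈ U ∩ mᶜ := ⟨ht, htm⟩
            rw [hUx] at this
            exact this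
    have hmem : insert x m ∈ {O : Set K | IsOpen O ∧ PP μ O} := by
      refine ⟨?_, PP_insert μ hm.1.2 x⟩
      rw [hins]
      exact hm.1.1.union hU
    have := hm.2 hmem (subset_insert x m)
    exact hx (this (mem_insert x m))
  rw [← hmu]
  exact hm.1.2

theorem functional_small (hK : Scattered K) (μ : C(K, ℝ) →L[ℝ] ℝ) (ε : ℝ) (hε : 0 < ε) :
    ∃ Φ : Finset K, ∀ f : C(K, ℝ), ‖f‖ ≤ 1 → (∀ t ∈ Φ, f t = 0) → |μ f| ≤ ε := by
  obtain ⟨Φ, hΦ⟩ := PP_univ hK μ ε hε
  exact ⟨Φ, fun f h1 h2 => hΦ f h1 (fun t ht => absurd (mem_univ t) ht) h2⟩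

end Pool.Agent.BP245
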