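import Mathlib
import Pool.Agent.BP245.Functional

set_option autoImplicit false

open Set Topology Filter

namespace Pool.Agent.BP245

variable {K : Type} [TopologicalSpace K] [CompactSpace K] [T2Space K]

/-- On a scattered compact space, a continuous function misses some translate of a lattice. -/
theorem exists_miss (hK : Scattered K) (f : C(K, ℝ)) (p : ℝ) (hp : 0 < p) :
    ∃ c : ℚ, ∃ δ : ℝ, 0 < δ ∧ ∀ (t : K) (j : ℤ), δ ≤ |f t - ((c : ℝ) + j * p)| := by
  haveI : Fact (0 < p) := ⟨hp⟩
  set X : K → AddCircle p := fun t => ((f t : ℝ) : AddCircle p) with hX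
  have hXc : Continuous X := (AddCircle.continuous_mk' p).comp f.continuous
  have hns : ¬ Function.Surjective X := by
    intro hsurj
    obtain ⟨E, hEc, hEs, hEm⟩ := exists_compact_surjective_zorn_subset hXc hsurj
    have hEcl : IsClosed E := (isCompact_iff_compactSpace.2 hEc).isClosed
    have hEne : E.Nonempty := by
      rcases E.eq_empty_or_nonempty with h | h
      · rw [h, image_empty] at hEs
        exact absurd hEs.symm (univ_nonempty (α := AddCircle p)).ne_empty
      · exact h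
    obtain ⟨x, hx, U, hU, hUx⟩ := hK E hEne
    -- remove the isolated point
    have hE0ne : ({y : E | (y : K) ∉ U} : Set E) ≠ univ := by
      intro h
      have : (⟨x, hx⟩ : E) ∈ ({y : E | (y : K) ∉ U} : Set E) := by rw [h]; trivial
      have hxU : x ∈ U ∩ E := by rw [hUx]; rfl
      exact this hxU.1
    have hE0cl : IsClosed ({y : E | (y : K) ∉ U} : Set E) := by
      have : IsOpen ({y : E | (y : K) ∈ U} : Set E) := hU.preimage continuous_subtype_val
      exact this.isClosed_compl
    have himg := hEm _ hE0ne hE0cl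
    apply himg
    -- the image is closed and its complement is contained in a single point
    set I : Set (AddCircle p) := E.domRestrict X '' ({y : E | (y : K) ∉ U} : Set E) with hI
    have hIc : IsClosed I := by
      have hcont : Continuous (E.domRestrict X) := hXc.comp continuous_subtype_val
      exact (hE0cl.isCompact.image hcont).isClosed
    have hsub : Iᶜ ⊆ {X x} := by
      intro θ hθ
      have hθu : θ ∈ X '' E := by rw [hEs]; trivial
      obtain ⟨y, hyE, rfl⟩ := hθu
      by_cases hyU : y ∈ U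
      · have : y ∈ U ∩ E := ⟨hyU, hyE⟩
        rw [hUx] at this
        rw [mem_singleton_iff] at this
        rw [this]
        rfl
      · exfalso
        apply hθ
        exact ⟨⟨y, hyE⟩, hyU, rfl⟩
    by_contra hne
    have hcne : (Iᶜ).Nonempty := nonempty_compl.2 hne
    have heq : Iᶜ = {X x} := by
      apply subset_antisymm hsub
      obtain ⟨θ, hθ⟩ := hcne
      have := hsub hθ
      rw [mem_singleton_iff] at this
      rw [← this]
      exact singleton_subset_iff.2 hθ
    have hopen : IsOpen ({X x} : Set (AddCircle p)) := by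
      rw [← heq]
      exact hIc.isOpen_compl
    -- pull back to the reals
    have hpre : IsOpen ((fun y : ℝ => (y : AddCircle p)) ⁻¹' {X x}) :=
      hopen.preimage (AddCircle.continuous_mk' p)
    have hmem : f x ∈ ((fun y : ℝ => (y : AddCircle p)) ⁻¹' {X x}) := rfl
    obtain ⟨η, hη, hball⟩ := Metric.isOpen_iff.1 hpre (f x) hmem
    have h1 : f x + min (η / 2) (p / 2) ∈ ((fun y : ℝ => (y : AddCircle p)) ⁻¹' {X x}) := by
      apply hball
      rw [Metric.mem_ball, Real.dist_eq]
      have hpos : 0 < min (η / 2) (p / 2) := lt_min (by linarith) (by linarith)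
      have hle := min_le_left (η / 2) (p / 2)
      rw [show f x + min (η / 2) (p / 2) - f x = min (η / 2) (p / 2) by ring, abs_of_pos hpos]
      linarith
    have h2 : ((f x + min (η / 2) (p / 2) : ℝ) : AddCircle p) = ((f x : ℝ) : AddCircle p) := h1
    rw [AddCircle.coe_eq_coe_iff_of_mem_Ico (a := f x)] at h2
    · have hpos : 0 < min (η / 2) (p / 2) := lt_min (by linarith) (by linarith)
      linarith
    · have hpos : 0 < min (η / 2) (p / 2) := lt_min (by linarith) (by linarith)
      have hle := min_le_right (η / 2) (p / 2)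
      constructor <;> linarith
    · constructor <;> linarith
  -- a rational representative outside the range
  have hrc : IsOpen (range X)ᶜ := (isCompact_range hXc).isClosed.isOpen_compl
  have hpre : IsOpen ((fun y : ℝ => (y : AddCircle p)) ⁻¹' (range X)ᶜ) :=
    hrc.preimage (AddCircle.continuous_mk' p)
  have hne : ((fun y : ℝ => (y : AddCircle p)) ⁻¹' (range X)ᶜ).Nonempty := by
    rw [Function.Surjective] at hns
    push Not at hns
    obtain ⟨θ, hθ⟩ := hns
    obtain ⟨y, rfl⟩ := QuotientAddGroup.mk_surjective θ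
    refine ⟨y, ?_⟩
    rintro ⟨t, ht⟩
    exact hθ t ht
  obtain ⟨c, hc⟩ := Rat.denseRange_cast.exists_mem_open hpre hne
  refine ⟨c, ?_⟩
  -- the lattice is closed
  set Λ : Set ℝ := {y : ℝ | (y : AddCircle p) = ((c : ℝ) : AddCircle p)} with hΛ
  have hΛc : IsClosed Λ := isClosed_eq (AddCircle.continuous_mk' p) continuous_const
  have hΛj : ∀ j : ℤ, (c : ℝ) + j * p ∈ Λ := by
    intro j
    show (((c : ℝ) + j * p : ℝ) : AddCircle p) = ((c : ℝ) : AddCircle p)
    rw [AddCircle.coe_add]
    have : ((j * p : ℝ) : AddCircle p) = 0 := by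
      rw [← zsmul_eq_mul]
      rw [AddCircle.coe_zsmul, AddCircle.coe_period, smul_zero]
    rw [this, add_zero]
  have hft : ∀ t, f t ∉ Λ := by
    intro t ht
    exact hc ⟨t, ht⟩
  have hΛne : Λ.Nonempty := ⟨c, rfl⟩
  rcases isEmpty_or_nonempty K with hKe | hKne
  · exact ⟨1, one_pos, fun t => (hKe.false t).elim⟩
  · have hcont : Continuous (fun t => Metric.infDist (f t) Λ) :=
      (Metric.continuous_infDist_pt Λ).comp f.continuous
    obtain ⟨t0, -, ht0⟩ := isCompact_univ.exists_isMinOn univ_nonempty hcont.continuousOn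
    refine ⟨Metric.infDist (f t0) Λ, ?_, ?_⟩
    · exact (hΛc.notMem_iff_infDist_pos hΛne).1 (hft t0)
    · intro t j
      have h1 : Metric.infDist (f t0) Λ ≤ Metric.infDist (f t) Λ := ht0 (mem_univ t)
      have h2 := Metric.infDist_le_dist_of_mem (x := f t) (hΛj j)
      rw [Real.dist_eq] at h2
      exact h1.trans h2

/-- the part of the ball on which functions avoid the lattice `c + pℤ` by `η` -/
def H (K : Type) [TopologicalSpace K] [CompactSpace K] (c p η M : ℝ) : Set C(K, ℝ) :=
  {f | ‖f‖ ≤ M ∧ ∀ (t : K) (j : ℤ), η ≤ |f t - (c + j * p)|}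

theorem floor_eq {c p η x y : ℝ} (hp : 0 < p)
    (hx : ∀ j : ℤ, η ≤ |x - (c + j * p)|) (hy : ∀ j : ℤ, η ≤ |y - (c + j * p)|)
    (hxy : |x - y| < η) : ⌊(x - c) / p⌋ = ⌊(y - c) / p⌋ := by
  have key : ∀ x y : ℝ, (∀ j : ℤ, η ≤ |x - (c + j * p)|) → (∀ j : ℤ, η ≤ |y - (c + j * p)|) →
      |x - y| < η → ⌊(x - c) / p⌋ ≤ ⌊(y - c) / p⌋ := by
    intro x y hx hy hxy
    rw [Int.le_floor, le_div_iff₀ hp]
    set j := ⌊(x - c) / p⌋ with hj
    have h1 : (j : ℝ) * p ≤ x - c := by
      rw [← le_div_iff₀ hp]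
      exact Int.floor_le _
    have h2 := hx j
    rw [abs_of_nonneg (by linarith)] at h2
    rw [abs_lt] at hxy
    linarith
  exact le_antisymm (key x y hx hy hxy) (key y x hy hx (by rwa [abs_sub_comm]))

theorem frac_bounds {c p η x : ℝ} (hp : 0 < p) (hx : ∀ j : ℤ, η ≤ |x - (c + j * p)|) :
    |x - (c + (⌊(x - c) / p⌋ + 1 / 2) * p)| ≤ p / 2 - η := by
  set j := ⌊(x - c) / p⌋ with hj
  have h1 : (j : ℝ) * p ≤ x - c := by
    rw [← le_div_iff₀ hp]
    exact Int.floor_le _
  have h2 : x - c < ((j : ℝ) + 1) * p := by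
    rw [← div_lt_iff₀ hp]
    exact Int.lt_floor_add_one _
  have h3 := hx j
  rw [abs_of_nonneg (by linarith)] at h3
  have h4 := hx (j + 1)
  push_cast at h4
  rw [abs_of_nonpos (by linarith)] at h4
  rw [abs_le]
  constructor <;> linarith

theorem continuous_round {c p η : ℝ} (hp : 0 < p) (hη : 0 < η) (f : C(K, ℝ))
    (hf : ∀ (t : K) (j : ℤ), η ≤ |f t - (c + j * p)|) :
    Continuous (fun t => c + ((⌊(f t - c) / p⌋ : ℝ) + 1 / 2) * p) := by
  rw [continuous_iff_continuousAt]
  intro t
  have hev : ∀ᶠ s in 𝓝 t, ⌊(f s - c) / p⌋ = ⌊(f t - c) / p⌋ := by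
    have h1 : ∀ᶠ s in 𝓝 t, |f s - f t| < η := by
      have := (f.continuous.tendsto t).eventually (Metric.ball_mem_nhds (f t) hη)
      filter_upwards [this] with s hs
      rwa [Real.dist_eq] at hs
    filter_upwards [h1] with s hs
    exact floor_eq hp (hf s) (hf t) hs
  have : (fun s => c + ((⌊(f s - c) / p⌋ : ℝ) + 1 / 2) * p) =ᶠ[𝓝 t]
      fun _ => c + ((⌊(f t - c) / p⌋ : ℝ) + 1 / 2) * p := by
    filter_upwards [hev] with s hs
    rw [hs]
  exact (continuousAt_const.congr this.symm)

open Classical in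
/-- the rounding map -/
noncomputable def R (c p η M : ℝ) (hp : 0 < p) (hη : 0 < η) (f : C(K, ℝ)) : C(K, ℝ) :=
  if h : f ∈ H K c p η M then
    ⟨fun t => c + ((⌊(f t - c) / p⌋ : ℝ) + 1 / 2) * p, continuous_round hp hη f h.2⟩
  else 0

theorem R_apply {c p η M : ℝ} (hp : 0 < p) (hη : 0 < η) {f : C(K, ℝ)} (h : f ∈ H K c p η M)
    (t : K) : R c p η M hp hη f t = c + ((⌊(f t - c) / p⌋ : ℝ) + 1 / 2) * p := by
  unfold R
  rw [dif_pos h]
  rfl

theorem R_close {c p η M : ℝ} (hp : 0 < p) (hη : 0 < η) {f : C(K, ℝ)} (h : f ∈ H K c p η M) :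
    ‖f - R c p η M hp hη f‖ < p / 2 := by
  rw [ContinuousMap.norm_lt_iff _ (by linarith)]
  intro t
  rw [ContinuousMap.sub_apply, R_apply hp hη h, Real.norm_eq_abs]
  have := frac_bounds hp (h.2 t)
  linarith

/-- the functions with values in the shifted lattice -/
def Dset (K : Type) [TopologicalSpace K] [CompactSpace K] (c p : ℝ) : Set C(K, ℝ) :=
  {g | ∀ t, ∃ k : ℤ, g t = c + ((k : ℝ) + 1 / 2) * p}

theorem R_mem {c p η M : ℝ} (hp : 0 < p) (hη : 0 < η) {f : C(K, ℝ)} (h : f ∈ H K c p η M) :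
    R c p η M hp hη f ∈ Dset K c p := fun t => ⟨_, R_apply hp hη h t⟩

theorem Dset_sep {c p : ℝ} (hp : 0 < p) {g g' : C(K, ℝ)} (hg : g ∈ Dset K c p)
    (hg' : g' ∈ Dset K c p) (hne : g ≠ g') : p ≤ dist g g' := by
  have : ∃ t, g t ≠ g' t := by
    by_contra hcon
    push Not at hcon
    exact hne (ContinuousMap.ext hcon)
  obtain ⟨t, ht⟩ := this
  obtain ⟨k, hk⟩ := hg t
  obtain ⟨k', hk'⟩ := hg' t
  refine le_trans ?_ (ContinuousMap.dist_apply_le_dist t)
  rw [Real.dist_eq, hk, hk']
  have hkk : k ≠ k' := by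
    rintro rfl
    exact ht (hk.trans hk'.symm)
  have h1 : (1 : ℝ) ≤ |((k - k' : ℤ) : ℝ)| := by
    rw [← Int.cast_abs]
    exact_mod_cast Int.one_le_abs (sub_ne_zero.2 hkk)
  have h2 : c + ((k : ℝ) + 1 / 2) * p - (c + ((k' : ℝ) + 1 / 2) * p) = ((k - k' : ℤ) : ℝ) * p := by
    push_cast
    ring
  rw [h2, abs_mul, abs_of_pos hp]
  nlinarith

theorem discrete_of_subset_Dset {c p : ℝ} (hp : 0 < p) {E : Set C(K, ℝ)} (hE : E ⊆ Dset K c p) :
    DiscreteTopology E := by
  apply DiscreteTopology.of_forall_le_dist hp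
  intro x y hxy
  exact Dset_sep hp (hE x.2) (hE y.2) (fun h => hxy (Subtype.ext h))

end Pool.Agent.BP245
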