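import Mathlib
import Pool.Agent.BP245.Rounding

set_option autoImplicit false

open Set Topology Filter

namespace Pool.Agent.BP245

variable {K : Type} [TopologicalSpace K] [CompactSpace K] [T2Space K]

/-- the weak space of `C(K)` -/
abbrev W (K : Type) [TopologicalSpace K] [CompactSpace K] : Type := WeakSpace ℝ C(K, ℝ)

/-- the identity map to the weak space -/
noncomputable abbrev T (K : Type) [TopologicalSpace K] [CompactSpace K] :
    C(K, ℝ) ≃ₗ[ℝ] W K := toWeakSpace ℝ C(K, ℝ)

theorem continuous_functional (μ : C(K, ℝ) →L[ℝ] ℝ) :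
    Continuous (fun x : W K => μ ((T K).symm x)) :=
  WeakBilin.eval_continuous (topDualPairing ℝ C(K, ℝ)).flip μ

theorem continuous_eval' (t : K) : Continuous (fun x : W K => ((T K).symm x) t) :=
  continuous_functional (ContinuousMap.evalCLM ℝ t)

theorem continuous_to_weak {X : Type} [TopologicalSpace X] {g : X → C(K, ℝ)}
    (h : ∀ μ : C(K, ℝ) →L[ℝ] ℝ, Continuous (fun x => μ (g x))) :
    Continuous (fun x => T K (g x)) :=
  WeakBilin.continuous_of_continuous_eval (topDualPairing ℝ C(K, ℝ)).flip h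

theorem isClosed_H {c p η M : ℝ} (hM : 0 ≤ M) :
    IsClosed {x : W K | (T K).symm x ∈ H K c p η M} := by
  have : {x : W K | (T K).symm x ∈ H K c p η M} =
      (⋂ t : K, {x : W K | |((T K).symm x) t| ≤ M}) ∩
      (⋂ t : K, ⋂ j : ℤ, {x : W K | η ≤ |((T K).symm x) t - (c + j * p)|}) := by
    ext x
    simp only [H, mem_setOf_eq, mem_inter_iff, mem_iInter]
    rw [ContinuousMap.norm_le _ hM]
    rfl
  rw [this]
  apply IsClosed.inter
  · apply isClosed_iInter
    intro t
    exact isClosed_le (continuous_eval' t).abs continuous_const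
  · apply isClosed_iInter
    intro t
    apply isClosed_iInter
    intro j
    exact isClosed_le continuous_const ((continuous_eval' t).sub continuous_const).abs

theorem norm_R_le {c p η M : ℝ} (hp : 0 < p) (hη : 0 < η) {f : C(K, ℝ)} (h : f ∈ H K c p η M) :
    ‖R c p η M hp hη f‖ ≤ M + p := by
  have h1 := R_close hp hη h
  have h2 : ‖R c p η M hp hη f‖ ≤ ‖f‖ + ‖f - R c p η M hp hη f‖ := by
    have : R c p η M hp hη f = f - (f - R c p η M hp hη f) := by abel
    calc ‖R c p η M hp hη f‖ = ‖f - (f - R c p η M hp hη f)‖ := by rw [← this]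
      _ ≤ ‖f‖ + ‖f - R c p η M hp hη f‖ := norm_sub_le _ _
  have h3 := h.1
  linarith

/-- the rounding map is weak-to-weak continuous on `H` -/
theorem continuous_R (hK : Scattered K) {c p η M : ℝ} (hp : 0 < p) (hη : 0 < η) (hM : 0 ≤ M) :
    Continuous (fun x : {x : W K | (T K).symm x ∈ H K c p η M} =>
      T K (R c p η M hp hη ((T K).symm x))) := by
  apply continuous_to_weak
  intro μ
  rw [continuous_iff_continuousAt]
  intro x0
  rw [ContinuousAt, Metric.tendsto_nhds]
  intro ε hε
  set C : ℝ := 2 * (M + p) with hC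
  have hC0 : 0 < C := by positivity
  obtain ⟨Φ, hΦ⟩ := functional_small hK μ (ε / (2 * C)) (by positivity)
  have hev : ∀ᶠ x : {x : W K | (T K).symm x ∈ H K c p η M} in 𝓝 x0,
      ∀ t ∈ Φ, |((T K).symm (x : W K)) t - ((T K).symm (x0 : W K)) t| < η := by
    rw [Filter.eventually_all_finset]
    intro t _
    have hcont : Continuous (fun x : {x : W K | (T K).symm x ∈ H K c p η M} =>
        ((T K).symm (x : W K)) t) := (continuous_eval' t).comp continuous_subtype_val
    have := (hcont.tendsto x0).eventually (Metric.ball_mem_nhds _ hη)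
    filter_upwards [this] with x hx
    rwa [Real.dist_eq] at hx
  filter_upwards [hev] with x hx
  set f : C(K, ℝ) := (T K).symm (x : W K) with hf
  set f0 : C(K, ℝ) := (T K).symm (x0 : W K) with hf0
  have hfH : f ∈ H K c p η M := x.2
  have hf0H : f0 ∈ H K c p η M := x0.2
  set d : C(K, ℝ) := R c p η M hp hη f - R c p η M hp hη f0 with hd
  have hdn : ‖d‖ ≤ C := by
    have h1 := norm_R_le hp hη hfH
    have h2 := norm_R_le hp hη hf0H
    have h3 := norm_sub_le (R c p η M hp hη f) (R c p η M hp hη f0)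
    rw [hC]
    linarith
  have hdΦ : ∀ t ∈ Φ, d t = 0 := by
    intro t ht
    rw [hd, ContinuousMap.sub_apply, R_apply hp hη hfH, R_apply hp hη hf0H,
      floor_eq hp (hfH.2 t) (hf0H.2 t) (hx t ht), sub_self]
  have hsmall : |μ ((1 / C) • d)| ≤ ε / (2 * C) := by
    apply hΦ
    · rw [norm_smul, Real.norm_eq_abs, abs_of_pos (by positivity)]
      rw [div_mul_eq_mul_div, one_mul, div_le_one hC0]
      exact hdn
    · intro t ht
      rw [ContinuousMap.smul_apply, hdΦ t ht, smul_zero]
  rw [map_smul, smul_eq_mul, abs_mul, abs_of_pos (by positivity : (0 : ℝ) < 1 / C)] at hsmall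
  have h4 : |μ d| ≤ ε / 2 := by
    have h5 : |μ d| = C * (1 / C * |μ d|) := by
      field_simp
    rw [h5]
    calc C * (1 / C * |μ d|) ≤ C * (ε / (2 * C)) := by gcongr
      _ = ε / 2 := by field_simp
  rw [Real.dist_eq, ← map_sub]
  exact lt_of_le_of_lt h4 (by linarith)

/-- the weak Borel sets, as in the problem -/
theorem scattered_case (hK : Scattered K)
    (hne : MeasurableSpace.comap (toWeakSpace ℝ C(K, ℝ)) (borel (WeakSpace ℝ C(K, ℝ)))
      ≠ borel C(K, ℝ)) :
    ∃ D : Set C(K, ℝ), DiscreteTopology D ∧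
      ¬ @MeasurableSet C(K, ℝ)
          (MeasurableSpace.comap (toWeakSpace ℝ C(K, ℝ)) (borel (WeakSpace ℝ C(K, ℝ)))) D := by
  by_contra hcon
  push Not at hcon
  apply hne
  apply le_antisymm
  · -- weakly Borel sets are norm Borel
    have h1 : Continuous (fun f : C(K, ℝ) => toWeakSpaceCLM ℝ C(K, ℝ) f) :=
      (toWeakSpaceCLM ℝ C(K, ℝ)).continuous
    have h2 := h1.borel_measurable
    exact h2.comap_le
  · -- norm open sets are weakly Borel
    apply MeasurableSpace.generateFrom_le
    intro U hU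
    have hU : IsOpen U := hU
    -- the pieces
    have hpiece : ∀ (c p η M : ℝ) (hp : 0 < p) (hη : 0 < η) (_ : 0 ≤ M),
        @MeasurableSet C(K, ℝ)
          (MeasurableSpace.comap (toWeakSpace ℝ C(K, ℝ)) (borel (WeakSpace ℝ C(K, ℝ))))
          {f | f ∈ H K c p η M ∧ R c p η M hp hη f ∈ Dset K c p ∧
            Metric.ball (R c p η M hp hη f) (p / 2) ⊆ U} := by
      intro c p η M hp hη hM
      set E : Set C(K, ℝ) := {d | d ∈ Dset K c p ∧ Metric.ball d (p / 2) ⊆ U} with hE
      obtain ⟨E', hE'm, hE'⟩ := hcon E (discrete_of_subset_Dset hp (fun d hd => hd.1))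
      letI : MeasurableSpace (W K) := borel (W K)
      haveI : BorelSpace (W K) := ⟨rfl⟩
      set HW : Set (W K) := {x : W K | (T K).symm x ∈ H K c p η M} with hHW
      have hHWm : MeasurableSet HW := (isClosed_H hM).measurableSet
      have hS := (continuous_R hK (c := c) hp hη hM).measurable
      have hpre : MeasurableSet ((fun x : HW => T K (R c p η M hp hη ((T K).symm x))) ⁻¹' E') :=
        hS hE'm
      refine ⟨_, hHWm.subtype_image hpre, ?_⟩
      ext f
      simp only [mem_preimage, mem_image, mem_setOf_eq, Subtype.exists, exists_and_right,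
        exists_eq_right]
      have hEiff : ∀ g : C(K, ℝ), T K g ∈ E' ↔ g ∈ E := by
        intro g
        rw [← hE']
        rfl
      constructor
      · rintro ⟨h1, h2⟩
        have h1' : f ∈ H K c p η M := by
          have := h1
          simpa [hHW] using this
        rw [hEiff] at h2
        simp only [LinearEquiv.symm_apply_apply] at h2
        exact ⟨h1', h2.1, h2.2⟩
      · rintro ⟨h1, h2, h3⟩
        refine ⟨?_, ?_⟩
        · simpa [hHW] using h1
        · rw [hEiff]
          simp only [LinearEquiv.symm_apply_apply]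
          exact ⟨h2, h3⟩
    have hp : ∀ n : ℕ, (0 : ℝ) < 1 / ((n : ℝ) + 1) := fun n => by positivity
    have hUeq : U = ⋃ c : ℚ, ⋃ n : ℕ, ⋃ m : ℕ,
        {f | f ∈ H K (c : ℝ) (1 / ((n : ℝ) + 1)) (1 / ((m : ℝ) + 1)) (m : ℝ) ∧
          R (c : ℝ) (1 / ((n : ℝ) + 1)) (1 / ((m : ℝ) + 1)) (m : ℝ) (hp n) (hp m) f ∈
            Dset K (c : ℝ) (1 / ((n : ℝ) + 1)) ∧
          Metric.ball (R (c : ℝ) (1 / ((n : ℝ) + 1)) (1 / ((m : ℝ) + 1)) (m : ℝ) (hp n) (hp m) f)
            ((1 / ((n : ℝ) + 1)) / 2) ⊆ U} := by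
      ext f
      simp only [mem_iUnion, mem_setOf_eq]
      constructor
      · intro hf
        obtain ⟨r, hr, hball⟩ := Metric.isOpen_iff.1 hU f hf
        obtain ⟨n, hn⟩ := exists_nat_one_div_lt hr
        obtain ⟨c, δ, hδ, hmiss⟩ := exists_miss hK f (1 / ((n : ℝ) + 1)) (hp n)
        obtain ⟨m1, hm1⟩ := exists_nat_one_div_lt hδ
        obtain ⟨m2, hm2⟩ := exists_nat_ge ‖f‖
        refine ⟨c, n, max m1 m2, ?_⟩
        have hfH : f ∈ H K (c : ℝ) (1 / ((n : ℝ) + 1)) (1 / (((max m1 m2 : ℕ) : ℝ) + 1))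
            ((max m1 m2 : ℕ) : ℝ) := by
          constructor
          · refine hm2.trans ?_
            exact_mod_cast le_max_right m1 m2
          · intro t j
            refine le_trans ?_ (hmiss t j)
            refine le_trans ?_ hm1.le
            apply one_div_le_one_div_of_le (by positivity)
            have : (m1 : ℝ) ≤ ((max m1 m2 : ℕ) : ℝ) := by exact_mod_cast le_max_left m1 m2
            linarith
        refine ⟨hfH, R_mem _ _ hfH, ?_⟩
        intro g hg
        apply hball
        rw [Metric.mem_ball] at hg ⊢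
        have h1 := R_close (hp n) (hp (max m1 m2)) hfH
        rw [← dist_eq_norm] at h1
        have h2 := dist_triangle g (R (c : ℝ) (1 / ((n : ℝ) + 1))
          (1 / (((max m1 m2 : ℕ) : ℝ) + 1)) ((max m1 m2 : ℕ) : ℝ) (hp n) (hp (max m1 m2)) f) f
        rw [dist_comm f] at h1
        linarith
      · rintro ⟨c, n, m, h1, h2, h3⟩
        apply h3
        rw [Metric.mem_ball, dist_eq_norm]
        exact R_close (hp n) (hp m) h1
    rw [hUeq]
    refine MeasurableSet.iUnion fun c => MeasurableSet.iUnion fun n => MeasurableSet.iUnion fun m =>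
      ?_
    exact hpiece (c : ℝ) _ _ (m : ℝ) (hp n) (hp m) (by positivity)

end Pool.Agent.BP245
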